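import Pool.Agent.T9h45.SD.Piece

/-!
# Bounds for pieces
-/

set_option autoImplicit false

namespace Pool.T9h45.SD

open Finset Pool.Agent.R181.LW Pool.Agent.R181.Maj

theorem mem_edge {V : Type} {r : ℕ} {X : Fin r → Type} {f : (Σ i, X i) → V} {x : ∀ i, X i}
    {v : V} : v ∈ edge f x ↔ ∃ i, f ⟨i, x i⟩ = v := by
  unfold edge
  simp

/-- Any two edges have at most one common vertex. -/
def Linear {V : Type} (H : Set (Finset V)) : Prop :=
  ∀ a ∈ H, ∀ b ∈ H, a ≠ b → ((a : Set V) ∩ (b : Set V)).Subsingleton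

theorem final {V : Type} [Fintype V] {n : ℕ} {X : Fin (n + 1) → Type} [∀ i, Fintype (X i)]
    {f : (Σ i, X i) → V} (hf : Function.Injective f) (a : Fin (n + 1) → ℕ)
    (ha : ∀ i, a i ≤ Fintype.card (X i)) (N c : ℕ) (h : N ^ n ≤ c ^ n * ∏ i, a i) :
    (n + 1) ^ (n + 1) * N ^ n ≤ c ^ n * Fintype.card V ^ (n + 1) := by
  have h3 : ∏ i, a i ≤ ∏ i, Fintype.card (X i) := prod_le_prod' fun i _ => ha i
  have h4 := amgm (univ : Finset (Fin (n + 1))) univ_nonempty fun i => Fintype.card (X i)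
  rw [card_univ, Fintype.card_fin] at h4
  have h5 : ∑ i, Fintype.card (X i) ≤ Fintype.card V := by
    rw [← Fintype.card_sigma]
    exact Fintype.card_le_of_injective f hf
  calc (n + 1) ^ (n + 1) * N ^ n
      ≤ (n + 1) ^ (n + 1) * (c ^ n * ∏ i, Fintype.card (X i)) :=
        Nat.mul_le_mul_left _ (h.trans (Nat.mul_le_mul_left _ h3))
    _ = c ^ n * ((n + 1) ^ (n + 1) * ∏ i, Fintype.card (X i)) := by ring
    _ ≤ c ^ n * (∑ i, Fintype.card (X i)) ^ (n + 1) := Nat.mul_le_mul_left _ h4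
    _ ≤ _ := Nat.mul_le_mul_left _ (Nat.pow_le_pow_left h5 _)

theorem sd_le {V : Type} [Fintype V] {r : ℕ} (hr : 2 ≤ r) {F : Set (Finset V)}
    (hF : SDPiece r F) (hlin : Linear F) :
    r ^ r * F.ncard ^ (r - 1) ≤ Fintype.card V ^ r := by
  classical
  obtain ⟨n, rfl⟩ : ∃ n, r = n + 1 := ⟨r - 1, by omega⟩
  obtain ⟨X, κ, s, t, f, E, hf, hst, h1, h2, rfl⟩ := hF
  have hfi : ∀ i, Function.Injective fun a : X i => f ⟨i, a⟩ := fun i a b hab =>
    eq_of_heq (Sigma.mk.inj (hf hab)).2
  have : ∀ i, Finite (X i) := fun i => Finite.of_injective _ (hfi i)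
  let _ : ∀ i, Fintype (X i) := fun i => Fintype.ofFinite (X i)
  let A := {x // x ∈ E}
  let g : ∀ i, A → X i := fun i x => x.1 i
  let S : κ → A → A → A → A := fun k x y z =>
    ⟨fun i => s k i (x.1 i) (y.1 i) (z.1 i), (hst k _ x.2 _ y.2 _ z.2).1⟩
  let T : κ → A → A → A → A := fun k x y z =>
    ⟨fun i => t k i (x.1 i) (y.1 i) (z.1 i), (hst k _ x.2 _ y.2 _ z.2).2⟩
  have hW : Willard S T := by
    refine ⟨fun k x y => Subtype.ext (funext fun i => h1 k _ x.2 _ y.2 i), ?_⟩
    intro x y h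
    refine Subtype.ext (h2 _ x.2 _ y.2 fun k => ?_)
    have h3 := h k
    rw [Subtype.ext_iff, Subtype.ext_iff, funext_iff, funext_iff] at h3
    exact h3
  have hcard := count (by omega) g ⊥ 1 (by
    intro x₀ T hT
    refine card_le_one.2 fun a ha b hb => ?_
    have e1 : x₀ = a := hT a ha
    have e2 : x₀ = b := hT b hb
    rw [← e1, ← e2]) (by
    intro x y hxy
    refine willard_med (θ := ker g) hW ?_ ?_ ?_ hxy
    · intro i k a a' b b' c c' e1 e2 e3
      show s k i (a.1 i) (b.1 i) (c.1 i) = s k i (a'.1 i) (b'.1 i) (c'.1 i)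
      have e1' : a.1 i = a'.1 i := e1
      have e2' : b.1 i = b'.1 i := e2
      have e3' : c.1 i = c'.1 i := e3
      rw [e1', e2', e3']
    · intro i k a a' b b' c c' e1 e2 e3
      show t k i (a.1 i) (b.1 i) (c.1 i) = t k i (a'.1 i) (b'.1 i) (c'.1 i)
      have e1' : a.1 i = a'.1 i := e1
      have e2' : b.1 i = b'.1 i := e2
      have e3' : c.1 i = c'.1 i := e3
      rw [e1', e2', e3']
    · intro i j hij a b hi hj
      by_contra hab
      have e1 : a.1 i = b.1 i := hi
      have e2 : a.1 j = b.1 j := hj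
      have h3 : edge f a.1 ≠ edge f b.1 := fun h => hab (Subtype.ext (edge_injective hf h))
      have h4 := hlin _ ⟨a.1, a.2, rfl⟩ _ ⟨b.1, b.2, rfl⟩ h3
      have h5 : ∀ k, a.1 k = b.1 k →
          f ⟨k, a.1 k⟩ ∈ ((edge f a.1 : Finset V) : Set V) ∩ (edge f b.1 : Finset V) := by
        intro k hk
        refine ⟨?_, ?_⟩
        · exact mem_coe.2 (mem_image.2 ⟨k, mem_univ _, rfl⟩)
        · rw [hk]
          exact mem_coe.2 (mem_image.2 ⟨k, mem_univ _, rfl⟩)
      have h6 := h4 (h5 i e1) (h5 j e2)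
      exact hij (Sigma.mk.inj (hf h6)).1)
  have h3 : (edge f '' E).ncard = Fintype.card A := by
    rw [Set.ncard_image_of_injective _ (edge_injective hf), Set.ncard_eq_toFinset_card',
      Set.toFinset_card]
  have h4 : n + 1 - 1 = n := rfl
  rw [h3, h4]
  have h5 := final hf (fun i => #((univ : Finset A).image (g i))) (fun i => card_le_univ _)
    (Fintype.card A) 1 hcard
  rwa [one_pow, one_mul] at h5

theorem jonsson_le {V : Type} [Fintype V] {r e : ℕ} (hr : 2 ≤ r) (he : 1 ≤ e)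
    {H : Set (Finset V)} (hH : SpanMore H e ((r - 2) * e + 2)) {F : Set (Finset V)}
    (hF : JonssonPiece r F) (hFH : F ⊆ H) :
    r ^ r * F.ncard ^ (r - 1) ≤ (e - 1) ^ (r - 1) * Fintype.card V ^ r := by
  classical
  obtain ⟨n, rfl⟩ : ∃ n, r = n + 1 := ⟨r - 1, by omega⟩
  obtain ⟨X, m, p, f, E, hf, hE, hp, hp', hp'', rfl⟩ := hF
  have hfi : ∀ i, Function.Injective fun a : X i => f ⟨i, a⟩ := fun i a b hab =>
    eq_of_heq (Sigma.mk.inj (hf hab)).2
  have : ∀ i, Finite (X i) := fun i => Finite.of_injective _ (hfi i)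
  let _ : ∀ i, Fintype (X i) := fun i => Fintype.ofFinite (X i)
  let A := {x // x ∈ E}
  let g : ∀ i, A → X i := fun i x => x.1 i
  let P : ℕ → A → A → A → A := fun k x y z =>
    if h : k ≤ m then ⟨fun i => p k i (x.1 i) (y.1 i) (z.1 i), hE k h _ x.2 _ y.2 _ z.2⟩ else x
  have hPv : ∀ k, k ≤ m → ∀ x y z : A, ∀ i, (P k x y z).1 i = p k i (x.1 i) (y.1 i) (z.1 i) := by
    intro k hk x y z i
    show (if h : k ≤ m then _ else x : A).1 i = _
    rw [dif_pos hk]
  have hJ : Jonsson m P := by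
    refine ⟨?_, ?_, ?_, ?_⟩
    · intro k x y hk
      refine Subtype.ext (funext fun i => ?_)
      rw [hPv k hk]
      exact hp k hk i _ _
    · intro x y z
      refine Subtype.ext (funext fun i => ?_)
      rw [hPv 0 (Nat.zero_le _)]
      exact (hp' i _ _ _).1
    · intro x y z
      refine Subtype.ext (funext fun i => ?_)
      rw [hPv m le_rfl]
      exact (hp' i _ _ _).2
    · intro k hk
      rcases hp'' k hk with h | h
      · left
        intro x z
        refine Subtype.ext (funext fun i => ?_)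
        rw [hPv k hk.le, hPv (k + 1) hk]
        exact h i _ _
      · right
        intro x z
        refine Subtype.ext (funext fun i => ?_)
        rw [hPv k hk.le, hPv (k + 1) hk]
        exact h i _ _
  let W : Setoid A := Relation.EqvGen.setoid (Share g)
  have hcard := count (by omega) g W (e - 1) (by
    intro x₀ T hT
    by_contra hcon
    push Not at hcon
    have h1 : e ≤ #((univ : Finset A).filter fun y => W x₀ y) := by
      have h2 : #T ≤ #((univ : Finset A).filter fun y => W x₀ y) :=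
        card_le_card fun y hy => mem_filter.2 ⟨mem_univ _, hT y hy⟩
      omega
    obtain ⟨T', -, hTe, hT'⟩ := growth hr g x₀ (univ.filter fun y => W x₀ y)
      (fun y => by rw [mem_filter]; exact ⟨fun h => h.2, fun h => ⟨mem_univ _, h⟩⟩) e he h1
    have h3 := hH ((T'.map (Function.Embedding.subtype _)).image (edge f)) (by
      rw [coe_image]
      intro a ha
      obtain ⟨x, hx, rfl⟩ := ha
      obtain ⟨y, -, rfl⟩ := mem_map.1 (mem_coe.1 hx)
      exact hFH ⟨y.1, y.2, rfl⟩)
      (by rw [card_image_of_injective _ (edge_injective hf), card_map, hTe])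
    rw [union_eq hf] at h3
    have h2 : ∀ i, (T'.map (Function.Embedding.subtype _)).image (fun x : ∀ i, X i => x i) =
        T'.image (g i) := by
      intro i
      rw [map_eq_image, image_image]
      rfl
    simp only [h2] at h3
    exact absurd hT' (not_le_of_gt h3)) (by
    intro x y hxy
    refine jonsson_med (θ := ker g) hJ ?_ W ?_ hxy
    · intro i k hk a a' b b' c c' e1 e2 e3
      show (P k a b c).1 i = (P k a' b' c').1 i
      rw [hPv k hk, hPv k hk]
      have e1' : a.1 i = a'.1 i := e1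
      have e2' : b.1 i = b'.1 i := e2
      have e3' : c.1 i = c'.1 i := e3
      rw [e1', e2', e3']
    · intro i j hij a b hi hj
      exact Relation.EqvGen.rel _ _ ⟨i, j, hij, hi, hj⟩)
  have h3 : (edge f '' E).ncard = Fintype.card A := by
    rw [Set.ncard_image_of_injective _ (edge_injective hf), Set.ncard_eq_toFinset_card',
      Set.toFinset_card]
  have h4 : n + 1 - 1 = n := rfl
  rw [h3, h4]
  exact final hf (fun i => #((univ : Finset A).image (g i))) (fun i => card_le_univ _)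
    (Fintype.card A) (e - 1) hcard

/-- the union of `L` pieces -/
theorem union_bound {V : Type} [Fintype V] {r L c : ℕ} (hr : 2 ≤ r) (H : Set (Finset V))
    (F : Fin L → Set (Finset V)) (hH : H = ⋃ i, F i)
    (hF : ∀ i, r ^ r * (F i).ncard ^ (r - 1) ≤ c ^ (r - 1) * Fintype.card V ^ r) :
    (H.ncard : ℝ) ≤ c * L * ((Fintype.card V : ℝ) / r) ^ ((r : ℝ) / ((r : ℝ) - 1)) := by
  classical
  have hr3 : (2 : ℝ) ≤ r := by exact_mod_cast hr
  have h1 : ∀ i, ((F i).ncard : ℝ) ≤
      c * ((Fintype.card V : ℝ) / r) ^ ((r : ℝ) / ((r : ℝ) - 1)) := by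
    intro i
    refine le_of_pow_le_pow_left₀ (n := r - 1) (by omega) (by positivity) ?_
    have h3 : (((Fintype.card V : ℝ) / r) ^ ((r : ℝ) / ((r : ℝ) - 1))) ^ (r - 1) =
        ((Fintype.card V : ℝ) / r) ^ r := by
      rw [← Real.rpow_natCast, ← Real.rpow_mul (by positivity), ← Real.rpow_natCast _ r,
        Nat.cast_sub (by omega), Nat.cast_one, div_mul_cancel₀ _ (by linarith)]
    rw [mul_pow, h3]
    have h4 : ((r ^ r * (F i).ncard ^ (r - 1) : ℕ) : ℝ) ≤
        ((c ^ (r - 1) * Fintype.card V ^ r : ℕ) : ℝ) := by exact_mod_cast hF i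
    rw [Nat.cast_mul, Nat.cast_mul, Nat.cast_pow, Nat.cast_pow, Nat.cast_pow,
      Nat.cast_pow] at h4
    rw [div_pow, ← mul_div_assoc, le_div_iff₀ (by positivity)]
    linarith
  have h6 : H.ncard ≤ ∑ i : Fin L, (F i).ncard := by
    rw [hH]
    exact Set.ncard_iUnion_le_of_fintype F
  calc (H.ncard : ℝ) ≤ ((∑ i : Fin L, (F i).ncard : ℕ) : ℝ) := by exact_mod_cast h6
    _ = ∑ i : Fin L, ((F i).ncard : ℝ) := by push_cast; rfl
    _ ≤ ∑ _i : Fin L, c * ((Fintype.card V : ℝ) / r) ^ ((r : ℝ) / ((r : ℝ) - 1)) :=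
        sum_le_sum fun i _ => h1 i
    _ = c * L * ((Fintype.card V : ℝ) / r) ^ ((r : ℝ) / ((r : ℝ) - 1)) := by
        rw [sum_const, card_univ, Fintype.card_fin, nsmul_eq_mul]; ring

/-- the grid is closed under componentwise minima -/
theorem grid_semilattice (n q : ℕ) : SemilatticePiece (n + 1) (grid n q) := by
  refine ⟨fun _ => Fin n → Fin q, fun _ a b k => min (a k) (b k), id,
    Set.range fun (p : Fin (n + 1) → Fin q) i => i.removeNth p, Function.injective_id, ?_, ?_, ?_⟩
  · intro i a b c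
    exact ⟨funext fun k => min_self _, funext fun k => min_comm _ _,
      funext fun k => min_assoc _ _ _⟩
  · rintro _ ⟨p, rfl⟩ _ ⟨p', rfl⟩
    exact ⟨fun j => min (p j) (p' j), rfl⟩
  · rw [grid, ← Set.range_comp]
    rfl

/-- any two edges of the grid have at most one common vertex -/
theorem grid_linear (n q : ℕ) : Linear (grid n q) := by
  rintro _ ⟨p, rfl⟩ _ ⟨p', rfl⟩ hne x ⟨hx, hx'⟩ y ⟨hy, hy'⟩
  have key : ∀ v : GridV n q, v ∈ edge (V := GridV n q) (X := fun _ => Fin n → Fin q) id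
      (fun i => i.removeNth p) → v ∈ edge (V := GridV n q) (X := fun _ => Fin n → Fin q) id
      (fun i => i.removeNth p') → ∃ i : Fin (n + 1), v = ⟨i, i.removeNth p⟩ ∧
        ∀ j, j ≠ i → p j = p' j := by
    intro v hv hv'
    obtain ⟨i, hi⟩ := mem_edge.1 hv
    obtain ⟨j, hj⟩ := mem_edge.1 hv'
    have hij : (⟨i, i.removeNth p⟩ : GridV n q) = ⟨j, j.removeNth p'⟩ := hi.trans hj.symm
    rw [Sigma.mk.injEq] at hij
    obtain ⟨rfl, h2⟩ := hij
    refine ⟨i, hi.symm, fun l hl => ?_⟩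
    exact removeNth_eq (P := fun _ => Fin q) (eq_of_heq h2) l hl
  obtain ⟨i, rfl, hi⟩ := key x (mem_coe.1 hx) (mem_coe.1 hx')
  obtain ⟨j, rfl, hj⟩ := key y (mem_coe.1 hy) (mem_coe.1 hy')
  by_cases hij : i = j
  · rw [hij]
  · exfalso
    apply hne
    have hpp : p = p' := by
      funext l
      by_cases hl : l = i
      · exact hj l (by rw [hl]; exact hij)
      · exact hi l hl
    rw [hpp]

end Pool.T9h45.SD
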