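import Pool.Agent.R181.MajPieces

/-!
# Joins of kernels in algebras with Willard or Jónsson operations
-/

set_option autoImplicit false

namespace Pool.T9h45.SD

open Finset Pool.Agent.R181.LW Pool.Agent.R181.Maj

section Alg

variable {A ι κ : Type}

/-- The join of the equivalence relations `θ i`, `i ∈ I`. -/
def J (θ : ι → Setoid A) (I : Set ι) : A → A → Prop :=
  Relation.EqvGen fun x y => ∃ i ∈ I, (θ i) x y

variable {θ : ι → Setoid A} {I : Set ι}

theorem J.refl (x : A) : J θ I x x := Relation.EqvGen.refl _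

theorem J.symm {x y : A} (h : J θ I x y) : J θ I y x := Relation.EqvGen.symm _ _ h

theorem J.trans {x y z : A} (h : J θ I x y) (h' : J θ I y z) : J θ I x z :=
  Relation.EqvGen.trans _ _ _ h h'

theorem J.of {i : ι} (hi : i ∈ I) {x y : A} (h : (θ i) x y) : J θ I x y :=
  Relation.EqvGen.rel _ _ ⟨i, hi, h⟩

theorem inv_gen {R : A → A → Prop} {S : A → Prop} (h : ∀ a b, R a b → (S a ↔ S b)) {x y : A}
    (hxy : Relation.EqvGen R x y) : S x ↔ S y := by
  induction hxy with
  | rel a b hab => exact h a b hab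
  | refl a => exact Iff.rfl
  | symm a b _ ih => exact ih.symm
  | trans a b c _ _ ih1 ih2 => exact ih1.trans ih2

theorem J.inv {S : A → Prop} (h : ∀ i ∈ I, ∀ a b, (θ i) a b → (S a ↔ S b)) {x y : A}
    (hxy : J θ I x y) : S x ↔ S y :=
  inv_gen (fun a b ⟨i, hi, hab⟩ => h i hi a b hab) hxy

theorem J.mono {I' : Set ι} (h : I ⊆ I') {x y : A} (hxy : J θ I x y) : J θ I' x y :=
  Relation.EqvGen.mono (fun _ _ ⟨i, hi, hab⟩ => ⟨i, h hi, hab⟩) x y hxy

theorem J.map (u : A → A) (hu : ∀ i, ∀ a b, (θ i) a b → (θ i) (u a) (u b)) {x y : A}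
    (hxy : J θ I x y) : J θ I (u x) (u y) := by
  induction hxy with
  | rel a b hab =>
    obtain ⟨i, hi, hab⟩ := hab
    exact J.of hi (hu i a b hab)
  | refl a => exact J.refl _
  | symm a b _ ih => exact ih.symm
  | trans a b c _ _ ih1 ih2 => exact ih1.trans ih2

/-- compatibility with a ternary operation -/
def Comp (s : Setoid A) (o : A → A → A → A) : Prop :=
  ∀ a a' b b' c c', s a a' → s b b' → s c c' → s (o a b c) (o a' b' c')

/-- The intersection of the joins of all but one of the `θ i`. -/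
def med (θ : ι → Setoid A) : Setoid A where
  r x y := ∀ k, J θ {i | i ≠ k} x y
  iseqv := ⟨fun x _ => J.refl x, fun h k => (h k).symm, fun h h' k => (h k).trans (h' k)⟩

/-- The condition of Willard for a family of pairs of ternary operations. -/
def Willard (s t : κ → A → A → A → A) : Prop :=
  (∀ k x y, s k x y x = t k x y x) ∧
    ∀ x y, (∀ k, s k x x y = t k x x y ↔ s k x y y = t k x y y) → x = y

theorem willard_join {s t : κ → A → A → A → A} (hW : Willard s t)
    (hs : ∀ i k, Comp (θ i) (s k)) (ht : ∀ i k, Comp (θ i) (t k)) (α : Setoid A)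
    (hαs : ∀ k x z y y', α y y' → α (s k x z y) (s k x z y'))
    (hαt : ∀ k x z y y', α y y' → α (t k x z y) (t k x z y'))
    (h0 : ∀ i ∈ I, ∀ a b, α a b → (θ i) a b → a = b) {x y : A} (hα : α x y)
    (hJ : J θ I x y) : x = y := by
  refine hW.2 x y fun k => ?_
  refine J.inv (S := fun z => s k x z y = t k x z y) ?_ hJ
  have key : ∀ i ∈ I, ∀ a b, (θ i) a b → s k x a y = t k x a y → s k x b y = t k x b y := by
    intro i hi a b hab h
    refine h0 i hi _ _ ?_ ?_
    · have h1 := hαs k x b y x (α.symm hα)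
      have h2 := hαt k x b x y hα
      rw [hW.1] at h1
      exact α.trans h1 h2
    · have h1 : (θ i) (s k x b y) (s k x a y) :=
        hs i k _ _ _ _ _ _ ((θ i).refl _) ((θ i).symm hab) ((θ i).refl _)
      have h2 : (θ i) (t k x a y) (t k x b y) :=
        ht i k _ _ _ _ _ _ ((θ i).refl _) hab ((θ i).refl _)
      rw [h] at h1
      exact (θ i).trans h1 h2
  exact fun i hi a b hab => ⟨key i hi a b hab, key i hi b a ((θ i).symm hab)⟩

theorem willard_med [Nonempty ι] {s t : κ → A → A → A → A} (hW : Willard s t)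
    (hs : ∀ i k, Comp (θ i) (s k)) (ht : ∀ i k, Comp (θ i) (t k))
    (h0 : ∀ i j, i ≠ j → ∀ a b, (θ i) a b → (θ j) a b → a = b) {x y : A}
    (h : (med θ) x y) : x = y := by
  have h1 : ∀ i, ∀ a b, (θ i) a b → J θ {j | j ≠ i} a b → a = b := by
    intro i a b hab hJ
    refine willard_join hW hs ht (θ i) ?_ ?_ (fun j hj a b h1 h2 => h0 j i hj a b h2 h1) hab hJ
    · exact fun k x z y y' hy => hs i k _ _ _ _ _ _ ((θ i).refl _) ((θ i).refl _) hy
    · exact fun k x z y y' hy => ht i k _ _ _ _ _ _ ((θ i).refl _) ((θ i).refl _) hy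
  obtain ⟨k₀⟩ := ‹Nonempty ι›
  refine willard_join (I := Set.univ) hW hs ht (med θ) ?_ ?_
    (fun i _ a b hm hab => h1 i a b hab (hm i)) h ((h k₀).mono (Set.subset_univ _))
  · intro k x z y y' hy l
    exact (hy l).map (s k x z)
      fun i a b hab => hs i k _ _ _ _ _ _ ((θ i).refl _) ((θ i).refl _) hab
  · intro k x z y y' hy l
    exact (hy l).map (t k x z)
      fun i a b hab => ht i k _ _ _ _ _ _ ((θ i).refl _) ((θ i).refl _) hab

/-- Jónsson operations `p 0, …, p m`. -/
def Jonsson (m : ℕ) (p : ℕ → A → A → A → A) : Prop :=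
  (∀ k x y, k ≤ m → p k x y x = x) ∧ (∀ x y z, p 0 x y z = x) ∧ (∀ x y z, p m x y z = z) ∧
    ∀ k, k < m → (∀ x z, p k x x z = p (k + 1) x x z) ∨ ∀ x z, p k x z z = p (k + 1) x z z

theorem jonsson_join {m : ℕ} {p : ℕ → A → A → A → A} (hp : Jonsson m p)
    (hc : ∀ i k, k ≤ m → Comp (θ i) (p k)) (α W : Setoid A)
    (hα' : ∀ k x z y y', k ≤ m → α y y' → α (p k x z y) (p k x z y'))
    (h0 : ∀ i ∈ I, ∀ a b, α a b → (θ i) a b → W a b) {x y : A} (hα : α x y)
    (hJ : J θ I x y) : W x y := by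
  obtain ⟨hp1, hp2, hp3, hp4⟩ := hp
  have hiff : ∀ k ≤ m, (W x (p k x x y) ↔ W x (p k x y y)) := by
    intro k hk
    refine J.inv (S := fun z => W x (p k x z y)) ?_ hJ
    have hx : ∀ z, α x (p k x z y) := by
      intro z
      have h1 := hα' k x z x y hk hα
      rwa [hp1 k x z hk] at h1
    have key : ∀ i ∈ I, ∀ a b, (θ i) a b → W x (p k x a y) → W x (p k x b y) := by
      intro i hi a b hab h
      refine W.trans h (h0 i hi _ _ (α.trans (α.symm (hx a)) (hx b)) ?_)
      exact hc i k hk _ _ _ _ _ _ ((θ i).refl _) hab ((θ i).refl _)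
    exact fun i hi a b hab => ⟨key i hi a b hab, key i hi b a ((θ i).symm hab)⟩
  have main : ∀ k ≤ m, W x (p k x x y) := by
    intro k hk
    induction k with
    | zero =>
      rw [hp2]
    | succ k ih =>
      have h1 := ih (by omega)
      rcases hp4 k (by omega) with h | h
      · rw [← h]
        exact h1
      · rw [hiff (k + 1) hk, ← h, ← hiff k (by omega)]
        exact h1
  have h1 := main m le_rfl
  rwa [hp3] at h1

theorem jonsson_med [Nonempty ι] {m : ℕ} {p : ℕ → A → A → A → A} (hp : Jonsson m p)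
    (hc : ∀ i k, k ≤ m → Comp (θ i) (p k)) (W : Setoid A)
    (h0 : ∀ i j, i ≠ j → ∀ a b, (θ i) a b → (θ j) a b → W a b) {x y : A}
    (h : (med θ) x y) : W x y := by
  have h1 : ∀ i, ∀ a b, (θ i) a b → J θ {j | j ≠ i} a b → W a b := by
    intro i a b hab hJ
    refine jonsson_join hp hc (θ i) W ?_ (fun j hj a b h1 h2 => h0 j i hj a b h2 h1) hab hJ
    exact fun k x z y y' hk hy => hc i k hk _ _ _ _ _ _ ((θ i).refl _) ((θ i).refl _) hy
  obtain ⟨k₀⟩ := ‹Nonempty ι›
  refine jonsson_join (I := Set.univ) hp hc (med θ) W ?_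
    (fun i _ a b hm hab => h1 i a b hab (hm i)) h ((h k₀).mono (Set.subset_univ _))
  intro k x z y y' hk hy l
  exact (hy l).map (p k x z)
    fun i a b hab => hc i k hk _ _ _ _ _ _ ((θ i).refl _) ((θ i).refl _) hab

end Alg

section Count

variable {A : Type} [Fintype A] {n : ℕ} {X : Fin (n + 1) → Type} [∀ i, DecidableEq (X i)]

/-- the kernels -/
def ker (f : ∀ i, A → X i) (i : Fin (n + 1)) : Setoid A := Setoid.ker (f i)

theorem count (hn : 1 ≤ n) (f : ∀ i, A → X i) (W : Setoid A) (c : ℕ)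
    (hc : ∀ x₀ : A, ∀ T : Finset A, (∀ y ∈ T, W x₀ y) → #T ≤ c)
    (h : ∀ x y, (med (ker f)) x y → W x y) :
    Fintype.card A ^ n ≤ c ^ n * ∏ i, #((univ : Finset A).image (f i)) := by
  classical
  rcases isEmpty_or_nonempty A with hA | hA
  · rw [Fintype.card_eq_zero, zero_pow (by omega)]
    exact Nat.zero_le _
  let ψ : Fin (n + 1) → Setoid A := fun k =>
    ⟨J (ker f) {i | i ≠ k}, fun x => J.refl x, fun h => h.symm, fun h h' => h.trans h'⟩
  let Φ : A → ∀ k, Quotient (ψ k) := fun x k => Quotient.mk _ x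
  have hΦ : ∀ x y k, Φ x k = Φ y k ↔ (ψ k) x y := fun x y k => Quotient.eq
  have h1 : #(univ : Finset A) ≤ c * #(univ.image Φ) := by
    refine card_le_mul_card_image_of_maps_to (f := Φ) (fun x hx => mem_image_of_mem _ hx) _ ?_
    intro b hb
    obtain ⟨x₀, -, rfl⟩ := mem_image.1 hb
    refine hc x₀ _ ?_
    intro y hy
    rw [mem_filter] at hy
    exact W.symm (h _ _ fun k => (hΦ y x₀ k).1 (congrFun hy.2 k))
  have hneA : (univ.image Φ).Nonempty := univ_nonempty.image _
  have h2 := loomisWhitney n (fun k => Quotient (ψ k)) (univ.image Φ) hneA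
  have h3 : ∀ i : Fin (n + 1), #((univ.image Φ).image fun x => i.removeNth x) ≤
      #((univ : Finset A).image (f i)) := by
    intro i
    rw [image_image]
    refine card_image_le_of_factor (univ : Finset A) (f i) _ ?_
    intro x _ y _ hxy
    funext k
    show Φ x (i.succAbove k) = Φ y (i.succAbove k)
    rw [hΦ]
    exact J.of (θ := ker f) (i := i) (Fin.succAbove_ne i k).symm hxy
  calc Fintype.card A ^ n ≤ (c * #(univ.image Φ)) ^ n := by
        rw [← card_univ]; exact Nat.pow_le_pow_left h1 _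
    _ = c ^ n * #(univ.image Φ) ^ n := mul_pow _ _ _
    _ ≤ c ^ n * ∏ i : Fin (n + 1), #((univ.image Φ).image fun x => i.removeNth x) :=
        Nat.mul_le_mul_left _ h2
    _ ≤ _ := Nat.mul_le_mul_left _ (prod_le_prod' fun i _ => h3 i)

end Count

end Pool.T9h45.SD
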