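import Pool.Agent.T9h45.SD.Core

/-!
# Pieces closed under Willard or Jónsson operations
-/

set_option autoImplicit false

namespace Pool.T9h45.SD

open Finset Pool.Agent.R181.LW Pool.Agent.R181.Maj

/-- `F` is a relation between `r` pairwise disjoint sets of vertices, closed under the componentwise
application of some operations `s k i`, `t k i` on these sets, which satisfy Willard's condition on
this relation: `s(x,y,x) = t(x,y,x)` for all pairs `s = s k`, `t = t k`, and if for all pairs
`s(x,x,y) = t(x,x,y)` holds if and only if `s(x,y,y) = t(x,y,y)`, then `x = y`. -/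
def SDPiece {V : Type} (r : ℕ) (F : Set (Finset V)) : Prop :=
  ∃ (X : Fin r → Type) (κ : Type) (s t : κ → ∀ i, X i → X i → X i → X i) (f : (Σ i, X i) → V)
    (E : Set (∀ i, X i)), Function.Injective f ∧
    (∀ k, ∀ x ∈ E, ∀ y ∈ E, ∀ z ∈ E, (fun i => s k i (x i) (y i) (z i)) ∈ E ∧
      (fun i => t k i (x i) (y i) (z i)) ∈ E) ∧
    (∀ k, ∀ x ∈ E, ∀ y ∈ E, ∀ i, s k i (x i) (y i) (x i) = t k i (x i) (y i) (x i)) ∧
    (∀ x ∈ E, ∀ y ∈ E, (∀ k, (∀ i, s k i (x i) (x i) (y i) = t k i (x i) (x i) (y i)) ↔
      ∀ i, s k i (x i) (y i) (y i) = t k i (x i) (y i) (y i)) → x = y) ∧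
    F = edge f '' E

/-- `F` is a relation between `r` pairwise disjoint sets of vertices, closed under the componentwise
application of some Jónsson operations `p 0, …, p m` on these sets. -/
def JonssonPiece {V : Type} (r : ℕ) (F : Set (Finset V)) : Prop :=
  ∃ (X : Fin r → Type) (m : ℕ) (p : ℕ → ∀ i, X i → X i → X i → X i) (f : (Σ i, X i) → V)
    (E : Set (∀ i, X i)), Function.Injective f ∧
    (∀ k ≤ m, ∀ x ∈ E, ∀ y ∈ E, ∀ z ∈ E, (fun i => p k i (x i) (y i) (z i)) ∈ E) ∧
    (∀ k ≤ m, ∀ i a b, p k i a b a = a) ∧ (∀ i a b c, p 0 i a b c = a ∧ p m i a b c = c) ∧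
    (∀ k < m, (∀ i a c, p k i a a c = p (k + 1) i a a c) ∨
      ∀ i a c, p k i a c c = p (k + 1) i a c c) ∧
    F = edge f '' E

/-- `F` is a relation between `r` pairwise disjoint sets of vertices, closed under the componentwise
application of some near-unanimity operations `u i` of the same arity `m ≥ 3`: the value is `a` if
all arguments but at most one are `a`. -/
def NearUnanimityPiece {V : Type} (r : ℕ) (F : Set (Finset V)) : Prop :=
  ∃ (X : Fin r → Type) (m : ℕ) (u : ∀ i, (Fin m → X i) → X i) (f : (Σ i, X i) → V)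
    (E : Set (∀ i, X i)), 3 ≤ m ∧ Function.Injective f ∧
    (∀ i a b j, u i (Function.update (fun _ => a) j b) = a) ∧
    (∀ x : Fin m → ∀ i, X i, (∀ j, x j ∈ E) → (fun i => u i fun j => x j i) ∈ E) ∧
    F = edge f '' E

/-- `F` is a relation between `r` pairwise disjoint sets of vertices, closed under the componentwise
application of some 2-semilattice operations. -/
def TwoSemilatticePiece {V : Type} (r : ℕ) (F : Set (Finset V)) : Prop :=
  ∃ (X : Fin r → Type) (m : ∀ i, X i → X i → X i) (f : (Σ i, X i) → V)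
    (E : Set (∀ i, X i)), Function.Injective f ∧
    (∀ i a b, m i a a = a ∧ m i a b = m i b a ∧ m i a (m i a b) = m i a b) ∧
    (∀ x ∈ E, ∀ y ∈ E, (fun i => m i (x i) (y i)) ∈ E) ∧ F = edge f '' E

/-- `F` is a relation between `r` pairwise disjoint sets of vertices, closed under the componentwise
application of some semilattice operations. -/
def SemilatticePiece {V : Type} (r : ℕ) (F : Set (Finset V)) : Prop :=
  ∃ (X : Fin r → Type) (m : ∀ i, X i → X i → X i) (f : (Σ i, X i) → V)
    (E : Set (∀ i, X i)), Function.Injective f ∧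
    (∀ i a b c, m i a a = a ∧ m i a b = m i b a ∧ m i (m i a b) c = m i a (m i b c)) ∧
    (∀ x ∈ E, ∀ y ∈ E, (fun i => m i (x i) (y i)) ∈ E) ∧ F = edge f '' E

variable {V : Type} {r : ℕ} {F : Set (Finset V)}

theorem SemilatticePiece.two (h : SemilatticePiece r F) : TwoSemilatticePiece r F := by
  obtain ⟨X, m, f, E, hf, hm, hE, rfl⟩ := h
  refine ⟨X, m, f, E, hf, fun i a b => ⟨(hm i a b a).1, (hm i a b a).2.1, ?_⟩, hE, rfl⟩
  rw [← (hm i a a b).2.2, (hm i a a b).1]

theorem TwoSemilatticePiece.sd (h : TwoSemilatticePiece r F) : SDPiece r F := by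
  obtain ⟨X, m, f, E, hf, hm, hE, rfl⟩ := h
  have hi : ∀ i a, m i a a = a := fun i a => (hm i a a).1
  have hc : ∀ i a b, m i a b = m i b a := fun i a b => (hm i a b).2.1
  have ha : ∀ i a b, m i a (m i a b) = m i a b := fun i a b => (hm i a b).2.2
  refine ⟨X, Bool, fun k i a b c => if k then m i a b else m i b c,
    fun k i a b c => if k then m i (m i a b) c else m i a (m i b c), f, E, hf, ?_, ?_, ?_, rfl⟩
  · intro k x hx y hy z hz
    cases k
    · exact ⟨hE y hy z hz, hE x hx _ (hE y hy z hz)⟩
    · exact ⟨hE x hx y hy, hE _ (hE x hx y hy) z hz⟩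
  · intro k x hx y hy i
    cases k
    · show m i (y i) (x i) = m i (x i) (m i (y i) (x i))
      rw [hc i (y i) (x i), ha]
    · show m i (x i) (y i) = m i (m i (x i) (y i)) (x i)
      rw [hc i (m i (x i) (y i)), ha]
  · intro x hx y hy h
    have h1 := h true
    have h2 := h false
    simp only [if_true, Bool.false_eq_true, if_false] at h1 h2
    have h3 : ∀ i, m i (x i) (x i) = m i (m i (x i) (x i)) (y i) := by
      rw [h1]
      intro i
      rw [hc i (m i (x i) (y i)) (y i), hc i (x i) (y i), ha]
    have h4 : ∀ i, m i (y i) (y i) = m i (x i) (m i (y i) (y i)) := by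
      rw [← h2]
      intro i
      rw [ha]
    funext i
    have h5 := h3 i
    have h6 := h4 i
    rw [hi] at h5 h6
    rw [h5, ← h6]

theorem JonssonPiece.sd (h : JonssonPiece r F) : SDPiece r F := by
  obtain ⟨X, m, p, f, E, hf, hE, hp, hp', hp'', rfl⟩ := h
  refine ⟨X, Fin (m + 1), fun k i a b c => p k i a b c, fun k i a b c => a, f, E, hf, ?_, ?_, ?_,
    rfl⟩
  · intro k x hx y hy z hz
    exact ⟨hE k (by omega) x hx y hy z hz, hx⟩
  · intro k x hx y hy i
    exact hp k (by omega) i _ _
  · intro x hx y hy h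
    have h1 : ∀ k, k ≤ m → ∀ i, p k i (x i) (x i) (y i) = x i := by
      intro k hk
      induction k with
      | zero => exact fun i => (hp' i _ _ _).1
      | succ k ih =>
        have h2 := ih (by omega)
        have hk1 := h ⟨k, by omega⟩
        have hk2 := h ⟨k + 1, by omega⟩
        rcases hp'' k (by omega) with h3 | h3
        · intro i
          rw [← h3]
          exact h2 i
        · rw [hk2]
          intro i
          show p (k + 1) i (x i) (y i) (y i) = x i
          rw [← h3]
          exact hk1.1 h2 i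
    funext i
    rw [← h1 m le_rfl i, (hp' i _ _ _).2]

theorem majority_jonsson (h : MajorityPiece r F) : JonssonPiece r F := by
  obtain ⟨X, μ, f, E, hμ, hf, hE, rfl⟩ := h
  refine ⟨X, 2, fun k i a b c => if k = 0 then a else if k = 1 then μ i a b c else c, f, E, hf,
    ?_, ?_, ?_, ?_, rfl⟩
  · intro k hk x hx y hy z hz
    interval_cases k
    · exact hx
    · exact hE x hx y hy z hz
    · exact hz
  · intro k hk i a b
    interval_cases k
    · rfl
    · exact (hμ i a b).2.1
    · rfl
  · exact fun i a b c => ⟨rfl, rfl⟩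
  · intro k hk
    interval_cases k
    · left
      intro i a c
      exact (hμ i a c).1.symm
    · right
      intro i a c
      exact (hμ i c a).2.2

theorem NearUnanimityPiece.jonsson (h : NearUnanimityPiece r F) : JonssonPiece r F := by
  obtain ⟨X, m, u, f, E, hm, hf, hu, hE, rfl⟩ := h
  have hid : ∀ i a, u i (fun _ => a) = a := by
    intro i a
    have h1 := hu i a a ⟨0, by omega⟩
    rwa [Function.update_eq_self_iff.2 rfl] at h1
  refine ⟨X, 2 * m, fun k i a b c => u i fun l => if (l : ℕ) < m - (k + 1) / 2 then a else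
    if k % 2 = 1 ∧ (l : ℕ) = m - (k + 1) / 2 then b else c, f, E, hf, ?_, ?_, ?_, ?_, rfl⟩
  · intro k hk x hx y hy z hz
    have h1 := hE (fun l => if (l : ℕ) < m - (k + 1) / 2 then x else
      if k % 2 = 1 ∧ (l : ℕ) = m - (k + 1) / 2 then y else z) (by
        intro l
        split_ifs
        · exact hx
        · exact hy
        · exact hz)
    convert h1 using 4
    split_ifs <;> rfl
  · intro k hk i a b
    by_cases h1 : k % 2 = 1 ∧ m - (k + 1) / 2 < m
    · refine Eq.trans (congrArg (u i) (funext fun l => ?_)) (hu i a b ⟨m - (k + 1) / 2, h1.2⟩)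
      by_cases h2 : l = ⟨m - (k + 1) / 2, h1.2⟩
      · subst h2
        rw [Function.update_self, if_neg (lt_irrefl _), if_pos ⟨h1.1, rfl⟩]
      · rw [Function.update_of_ne h2]
        have h3 : (l : ℕ) ≠ m - (k + 1) / 2 := fun h => h2 (Fin.ext h)
        rw [if_neg (fun h : k % 2 = 1 ∧ (l : ℕ) = m - (k + 1) / 2 => h3 h.2), ite_self]
    · refine Eq.trans (congrArg (u i) (funext fun l => ?_)) (hid i a)
      have h2 : ¬ (k % 2 = 1 ∧ (l : ℕ) = m - (k + 1) / 2) := by
        rintro ⟨h3, h4⟩
        exact h1 ⟨h3, by rw [← h4]; exact l.2⟩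
      rw [if_neg h2, ite_self]
  · intro i a b c
    constructor
    · refine Eq.trans (congrArg (u i) (funext fun l => ?_)) (hid i a)
      have h2 : (l : ℕ) < m - (0 + 1) / 2 := by
        have := l.2
        omega
      rw [if_pos h2]
    · refine Eq.trans (congrArg (u i) (funext fun l => ?_)) (hid i c)
      have h2 : ¬ (l : ℕ) < m - (2 * m + 1) / 2 := by omega
      have h3 : ¬ (2 * m % 2 = 1 ∧ (l : ℕ) = m - (2 * m + 1) / 2) := by omega
      rw [if_neg h2, if_neg h3]
  · intro k hk
    rcases Nat.even_or_odd' k with ⟨j, rfl | rfl⟩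
    · left
      intro i a c
      refine congrArg (u i) (funext fun l => ?_)
      have e1 : (2 * j + 1) / 2 = j := by omega
      have e2 : (2 * j + 1 + 1) / 2 = j + 1 := by omega
      rw [e1, e2]
      have h3 : ¬ (2 * j % 2 = 1 ∧ (l : ℕ) = m - j) := by omega
      rw [if_neg h3]
      by_cases h4 : (l : ℕ) < m - (j + 1)
      · rw [if_pos h4, if_pos (by omega)]
      · rw [if_neg h4]
        by_cases h5 : (l : ℕ) = m - (j + 1)
        · rw [if_pos (by omega), if_pos (by omega)]
        · rw [if_neg (by omega), if_neg (by omega)]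
    · right
      intro i a c
      refine congrArg (u i) (funext fun l => ?_)
      have e1 : (2 * j + 1 + 1) / 2 = j + 1 := by omega
      have e2 : (2 * j + 1 + 1 + 1) / 2 = j + 1 := by omega
      rw [e1, e2, ite_self, ite_self]

end Pool.T9h45.SD
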